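import Pool.Agent.U570.RT.Tri

/-!
# The rotors in the regular triangular prism are the balls (Goldberg's question)

Let `T` be an equilateral triangle of side `s` in the plane `z = 0` and `T × ℝ` the infinite regular triangular
prism over `T`. A convex body `K` is a rotor in the prism if every rotated copy `ρ K` can be translated into the
prism such that it meets the three faces. We prove that the rotors are exactly the balls of radius `s / (2 √3)`
(the radius of the inscribed circle of `T`): there is no nonspherical rotor.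

Proof. If `K` is a rotor with support function `h`, then `G = h - s / (2 √3)` satisfies
`G(u₁) + G(u₂) + G(u₃) = 0` for all coplanar unit vectors `u₁, u₂, u₃` at angles of 120 degrees. Let `F(t)` be the
mean of `G` over the circle of the unit vectors `u` with `⟨u, p⟩ = t`, for a fixed unit vector `p`. Then
`F(x) + F(y) + F(z) = 0` whenever `x + y + z = 0` and `x² + y² + z² ≤ 3/2`. This is Cauchy's functional equation
on an interval, so `F(t) = t F(1) = t G(p)`. Hence the integral of `⟨x, p⟩ |x| G(x / |x|)` over the unit ball is a constant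
multiple of `G(p)`; being linear in `p`, it shows that `G` is the restriction of a linear function, and `K` is a ball.
-/

set_option autoImplicit false

namespace Pool.Agent.Results.MP_c2e62a_gt.OnlyBalls

open Set
open scoped RealInnerProductSpace

/-- the projection `(x, y, z) ↦ (x, y)` -/
noncomputable def proj (x : EuclideanSpace ℝ (Fin 3)) : EuclideanSpace ℝ (Fin 2) := !₂[x 0, x 1]

/-- the infinite prism `S × ℝ` over the set `S` of the plane -/
def prism (S : Set (EuclideanSpace ℝ (Fin 2))) : Set (EuclideanSpace ℝ (Fin 3)) := {x | proj x ∈ S}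

/-- the points `V 0`, `V 1`, `V 2` are the vertices of an equilateral triangle of side `s` -/
def Equilateral (V : Fin 3 → EuclideanSpace ℝ (Fin 2)) (s : ℝ) : Prop :=
  0 < s ∧ ∀ i j, i ≠ j → dist (V i) (V j) = s

/-- the linear isometry `ρ` is a rotation -/
def IsRotation (ρ : EuclideanSpace ℝ (Fin 3) ≃ₗᵢ[ℝ] EuclideanSpace ℝ (Fin 3)) : Prop :=
  LinearMap.det (ρ.toLinearEquiv : EuclideanSpace ℝ (Fin 3) →ₗ[ℝ] EuclideanSpace ℝ (Fin 3)) = 1

/-- `K` is a rotor in the prism over the triangle with the vertices `V 0`, `V 1`, `V 2`: for every rotation `ρ`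
there is a vector `t` such that `ρ K + t` is contained in the prism and meets each of its three faces -/
def IsRotor (V : Fin 3 → EuclideanSpace ℝ (Fin 2)) (K : Set (EuclideanSpace ℝ (Fin 3))) : Prop :=
  ∀ ρ : EuclideanSpace ℝ (Fin 3) ≃ₗᵢ[ℝ] EuclideanSpace ℝ (Fin 3), IsRotation ρ →
    ∃ t, (fun x => ρ x + t) '' K ⊆ prism (convexHull ℝ (range V)) ∧
      ∀ i j, i ≠ j → ((fun x => ρ x + t) '' K ∩ prism (segment ℝ (V i) (V j))).Nonempty

open Pool.Agent.U570.RT

section triangle

variable {V : Fin 3 → P} {s : ℝ}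

/-- the centre -/
noncomputable def cen (V : Fin 3 → P) : P := (1 / 3 : ℝ) • (V 0 + V 1 + V 2)

theorem frame (h : Equilateral V s) : Fr (fun i => V i - cen V) (s ^ 2 / 3) := by
  obtain ⟨hs, hd⟩ := h
  have hsq : ∀ i j, i ≠ j → ⟪V i - V j, V i - V j⟫ = s ^ 2 := by
    intro i j hij
    rw [real_inner_self_eq_norm_sq, ← dist_eq_norm, hd i j hij]
  obtain ⟨x, hx⟩ : ∃ x, x = V 1 - V 0 := ⟨_, rfl⟩
  obtain ⟨y, hy⟩ : ∃ y, y = V 2 - V 0 := ⟨_, rfl⟩
  have hxx : ⟪x, x⟫ = s ^ 2 := by rw [hx]; exact hsq 1 0 (by decide)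
  have hyy : ⟪y, y⟫ = s ^ 2 := by rw [hy]; exact hsq 2 0 (by decide)
  have hxy : ⟪x, y⟫ = s ^ 2 / 2 := by
    have h1 := hsq 1 2 (by decide)
    have e : V 1 - V 2 = x - y := by rw [hx, hy]; abel
    rw [e, inner_sub_left, inner_sub_right, inner_sub_right, hxx, hyy, real_inner_comm x y] at h1
    linarith
  have hyx : ⟪y, x⟫ = s ^ 2 / 2 := by rw [real_inner_comm]; exact hxy
  have e0 : V 0 - cen V = (-1 / 3 : ℝ) • x + (-1 / 3 : ℝ) • y := by
    rw [hx, hy, cen]
    module
  have e1 : V 1 - cen V = (2 / 3 : ℝ) • x + (-1 / 3 : ℝ) • y := by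
    rw [hx, hy, cen]
    module
  have e2 : V 2 - cen V = (-1 / 3 : ℝ) • x + (2 / 3 : ℝ) • y := by
    rw [hx, hy, cen]
    module
  refine ⟨by positivity, ?_, ?_, ?_⟩
  · show V 0 - cen V + (V 1 - cen V) + (V 2 - cen V) = 0
    rw [e0, e1, e2]
    module
  · intro i
    fin_cases i
    · show ⟪V 0 - cen V, V 0 - cen V⟫ = s ^ 2 / 3
      rw [e0]
      simp only [inner_add_left, inner_add_right, real_inner_smul_left, real_inner_smul_right, hxx, hyy,
        hxy, hyx]
      ring
    · show ⟪V 1 - cen V, V 1 - cen V⟫ = s ^ 2 / 3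
      rw [e1]
      simp only [inner_add_left, inner_add_right, real_inner_smul_left, real_inner_smul_right, hxx, hyy,
        hxy, hyx]
      ring
    · show ⟪V 2 - cen V, V 2 - cen V⟫ = s ^ 2 / 3
      rw [e2]
      simp only [inner_add_left, inner_add_right, real_inner_smul_left, real_inner_smul_right, hxx, hyy,
        hxy, hyx]
      ring
  · have h01 : ⟪V 0 - cen V, V 1 - cen V⟫ = -(s ^ 2 / 3) / 2 := by
      rw [e0, e1]
      simp only [inner_add_left, inner_add_right, real_inner_smul_left, real_inner_smul_right, hxx, hyy,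
        hxy, hyx]
      ring
    have h02 : ⟪V 0 - cen V, V 2 - cen V⟫ = -(s ^ 2 / 3) / 2 := by
      rw [e0, e2]
      simp only [inner_add_left, inner_add_right, real_inner_smul_left, real_inner_smul_right, hxx, hyy,
        hxy, hyx]
      ring
    have h12 : ⟪V 1 - cen V, V 2 - cen V⟫ = -(s ^ 2 / 3) / 2 := by
      rw [e1, e2]
      simp only [inner_add_left, inner_add_right, real_inner_smul_left, real_inner_smul_right, hxx, hyy,
        hxy, hyx]
      ring
    intro i j hij
    fin_cases i <;> fin_cases j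
    · exact absurd rfl hij
    · exact h01
    · exact h02
    · show ⟪V 1 - cen V, V 0 - cen V⟫ = _
      rw [real_inner_comm]; exact h01
    · exact absurd rfl hij
    · exact h12
    · show ⟪V 2 - cen V, V 0 - cen V⟫ = _
      rw [real_inner_comm]; exact h02
    · show ⟪V 2 - cen V, V 1 - cen V⟫ = _
      rw [real_inner_comm]; exact h12
    · exact absurd rfl hij

/-- the outer unit normal of the side opposite to the vertex `V i` -/
noncomputable def nor (V : Fin 3 → P) (s : ℝ) (i : Fin 3) : P := (-(√3 / s)) • (V i - cen V)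

theorem s3 : √3 * √3 = (3 : ℝ) := Real.mul_self_sqrt (by norm_num)

theorem nor_inner (h : Equilateral V s) (i j : Fin 3) :
    ⟪V j - cen V, nor V s i⟫ = if i = j then -(s / √3) else s / (2 * √3) := by
  have hs := h.1
  have h3 : (0 : ℝ) < √3 := by positivity
  unfold nor
  rw [real_inner_smul_right]
  split_ifs with hij
  · subst hij
    have := (frame h).one i
    rw [this]
    field_simp
    nlinarith [s3]
  · have := (frame h).half j i (fun e => hij e.symm)
    rw [this]
    field_simp
    nlinarith [s3]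

theorem nor_sum (h : Equilateral V s) : nor V s 0 + nor V s 1 + nor V s 2 = 0 := by
  unfold nor
  rw [← smul_add, ← smul_add]
  have := (frame h).sum
  rw [this, smul_zero]

theorem trip (h : Equilateral V s) : Trip (fun i => lf (nor V s i)) e3 := by
  have hs := h.1
  have h3 : (0 : ℝ) < √3 := by positivity
  refine ⟨e3_norm, fun i => lf_inner_e3 _, ?_, ?_⟩
  · intro i
    show ⟪lf (nor V s i), lf (nor V s i)⟫ = 1
    rw [inner_lf, pr_lf]
    unfold nor
    rw [real_inner_smul_left, real_inner_smul_right]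
    have := (frame h).one i
    rw [this]
    field_simp
    nlinarith [s3]
  · intro i j hij
    show ⟪lf (nor V s i), lf (nor V s j)⟫ = -1 / 2
    rw [inner_lf, pr_lf]
    unfold nor
    rw [real_inner_smul_left, real_inner_smul_right]
    have := (frame h).half i j hij
    rw [this]
    field_simp
    nlinarith [s3]

theorem hull_le (h : Equilateral V s) (i : Fin 3) {p : P} (hp : p ∈ convexHull ℝ (range V)) :
    ⟪p - cen V, nor V s i⟫ ≤ s / (2 * √3) := by
  have hs := h.1
  have hc : Convex ℝ {p : P | ⟪p - cen V, nor V s i⟫ ≤ s / (2 * √3)} := by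
    intro a ha b hb x y hx hy hxy
    simp only [mem_ofPred_eq] at *
    have e : x • a + y • b - cen V = x • (a - cen V) + y • (b - cen V) := by
      have : cen V = (x + y) • cen V := by rw [hxy, one_smul]
      nth_rewrite 1 [this]
      module
    rw [e, inner_add_left, real_inner_smul_left, real_inner_smul_left]
    calc x * ⟪a - cen V, nor V s i⟫ + y * ⟪b - cen V, nor V s i⟫ ≤
        x * (s / (2 * √3)) + y * (s / (2 * √3)) := by gcongr
      _ = s / (2 * √3) := by rw [← add_mul, hxy, one_mul]
  apply (convexHull_min _ hc) hp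
  rintro _ ⟨j, rfl⟩
  simp only [mem_ofPred_eq]
  rw [nor_inner h]
  split_ifs
  · have : 0 < s / √3 := by positivity
    have : 0 < s / (2 * √3) := by positivity
    linarith
  · exact le_rfl

theorem side_eq (h : Equilateral V s) {i j k : Fin 3} (hij : i ≠ j) (hik : i ≠ k) {p : P}
    (hp : p ∈ segment ℝ (V j) (V k)) : ⟪p - cen V, nor V s i⟫ = s / (2 * √3) := by
  obtain ⟨x, y, hx, hy, hxy, rfl⟩ := hp
  have e : x • V j + y • V k - cen V = x • (V j - cen V) + y • (V k - cen V) := by
    have : cen V = (x + y) • cen V := by rw [hxy, one_smul]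
    nth_rewrite 1 [this]
    module
  rw [e, inner_add_left, real_inner_smul_left, real_inner_smul_left, nor_inner h, nor_inner h,
    if_neg hij, if_neg hik, ← add_mul, hxy, one_mul]

theorem mem_hull (h : Equilateral V s) {p : P} (hp : ‖p - cen V‖ ≤ s / (2 * √3)) :
    p ∈ convexHull ℝ (range V) := by
  have hs := h.1
  have h3 : (0 : ℝ) < √3 := by positivity
  have hf := frame h
  have ht := hf.tight (p - cen V)
  have hsum := hf.sum
  have hnorm : ∀ i, ‖V i - cen V‖ = s / √3 := by
    intro i
    have := hf.one i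
    rw [real_inner_self_eq_norm_sq] at this
    have e : s ^ 2 / 3 = (s / √3) ^ 2 := by
      rw [div_pow, Real.sq_sqrt (by norm_num)]
    rw [e] at this
    exact (pow_left_inj₀ (norm_nonneg _) (by positivity) (by norm_num)).1 this
  set w : Fin 3 → ℝ := fun i => 1 / 3 + 2 / s ^ 2 * ⟪p - cen V, V i - cen V⟫ with hw
  have w0 : ∀ i ∈ (Finset.univ : Finset (Fin 3)), 0 ≤ w i := by
    intro i _
    have h1 : |⟪p - cen V, V i - cen V⟫| ≤ ‖p - cen V‖ * ‖V i - cen V‖ := abs_real_inner_le_norm _ _
    have h2 : ‖p - cen V‖ * ‖V i - cen V‖ ≤ s / (2 * √3) * (s / √3) := by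
      rw [hnorm]
      gcongr
    have h4 : s / (2 * √3) * (s / √3) = s ^ 2 / 6 := by
      field_simp
      nlinarith [s3]
    have h5 := (abs_le.1 (h1.trans (h2.trans h4.le))).1
    have h6 : 2 / s ^ 2 * (-(s ^ 2 / 6)) ≤ 2 / s ^ 2 * ⟪p - cen V, V i - cen V⟫ := by gcongr
    have h7 : 2 / s ^ 2 * (-(s ^ 2 / 6)) = -(1 / 3) := by
      field_simp
      norm_num
    show 0 ≤ 1 / 3 + 2 / s ^ 2 * ⟪p - cen V, V i - cen V⟫
    linarith
  have hz : ⟪p - cen V, V 0 - cen V⟫ + ⟪p - cen V, V 1 - cen V⟫ + ⟪p - cen V, V 2 - cen V⟫ = 0 := by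
    rw [← inner_add_right, ← inner_add_right, hsum, inner_zero_right]
  have w1 : ∑ i, w i = 1 := by
    rw [Fin.sum_univ_three, hw]
    simp only
    linear_combination 2 / s ^ 2 * hz
  have hmem := (convex_convexHull ℝ (range V)).sum_mem w0 w1
    (fun i _ => subset_convexHull ℝ (range V) (mem_range_self i))
  have e : ∑ i, w i • V i = p := by
    have e1 : ∑ i, w i • V i = cen V + ∑ i, w i • (V i - cen V) := by
      have : cen V = (∑ i, w i) • cen V := by rw [w1, one_smul]
      rw [this, Finset.sum_smul, ← Finset.sum_add_distrib]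
      apply Finset.sum_congr rfl
      intro i _
      rw [← Finset.sum_smul, w1, one_smul]
      module
    have e2 : ∑ i, w i • (V i - cen V) = p - cen V := by
      rw [Fin.sum_univ_three, hw]
      simp only [add_smul]
      have e3 : (1 / 3 : ℝ) • (V 0 - cen V) + (2 / s ^ 2 * ⟪p - cen V, V 0 - cen V⟫) • (V 0 - cen V) +
          ((1 / 3 : ℝ) • (V 1 - cen V) + (2 / s ^ 2 * ⟪p - cen V, V 1 - cen V⟫) • (V 1 - cen V)) +
          ((1 / 3 : ℝ) • (V 2 - cen V) + (2 / s ^ 2 * ⟪p - cen V, V 2 - cen V⟫) • (V 2 - cen V)) =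
          (1 / 3 : ℝ) • (V 0 - cen V + (V 1 - cen V) + (V 2 - cen V)) +
          (2 / s ^ 2) • (⟪p - cen V, V 0 - cen V⟫ • (V 0 - cen V) +
            ⟪p - cen V, V 1 - cen V⟫ • (V 1 - cen V) + ⟪p - cen V, V 2 - cen V⟫ • (V 2 - cen V)) := by
        module
      rw [e3, hsum, ht, smul_zero, zero_add, smul_smul]
      have e4 : 2 / s ^ 2 * (3 / 2 * (s ^ 2 / 3)) = 1 := by field_simp
      rw [e4, one_smul]
    rw [e1, e2]
    abel
  rw [e] at hmem
  exact hmem

end triangle

section support

variable {K : Set (EuclideanSpace ℝ (Fin 3))}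

/-- the support function -/
noncomputable def supp (K : Set E) (u : E) : ℝ := sSup ((fun x => ⟪x, u⟫) '' K)

theorem supp_great (hK : IsCompact K) (hne : K.Nonempty) (u : E) :
    IsGreatest ((fun x => ⟪x, u⟫) '' K) (supp K u) := by
  apply (hK.image (by fun_prop)).isGreatest_sSup (hne.image _)

theorem supp_le (hK : IsCompact K) (hne : K.Nonempty) {x : E} (hx : x ∈ K) (u : E) :
    ⟪x, u⟫ ≤ supp K u := (supp_great hK hne u).2 (mem_image_of_mem _ hx)

theorem supp_eq {u : E} {c : ℝ} (h1 : ∀ x ∈ K, ⟪x, u⟫ ≤ c) (h2 : ∃ x ∈ K, ⟪x, u⟫ = c) :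
    supp K u = c := by
  apply IsGreatest.csSup_eq
  refine ⟨?_, ?_⟩
  · obtain ⟨x, hx, e⟩ := h2
    exact ⟨x, hx, e⟩
  · rintro _ ⟨x, hx, rfl⟩
    exact h1 x hx

theorem supp_hom (hK : IsCompact K) (hne : K.Nonempty) (s : ℝ) (u : E) (hs : 0 ≤ s) :
    supp K (s • u) = s * supp K u := by
  obtain ⟨⟨x, hx, e⟩, h2⟩ := supp_great hK hne u
  simp only at e
  apply supp_eq
  · intro y hy
    rw [real_inner_smul_right]
    exact mul_le_mul_of_nonneg_left (supp_le hK hne hy u) hs
  · exact ⟨x, hx, by rw [real_inner_smul_right, e]⟩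

theorem supp_cont (hK : IsCompact K) : Continuous (supp K) := by
  have h := hK.continuous_sSup (f := fun (u : E) (x : E) => ⟪x, u⟫) (by fun_prop)
  exact h

/-- a compact convex set with the support function of a ball -/
theorem eq_ball (hc : Convex ℝ K) (hK : IsCompact K) (hne : K.Nonempty) {r : ℝ} {v : E} (hr : 0 ≤ r)
    (h : ∀ x, supp K x = r * ‖x‖ + ⟪v, x⟫) : K = Metric.closedBall v r := by
  ext y
  rw [mem_closedBall_iff_norm]
  constructor
  · intro hy
    by_contra hlt
    push Not at hlt
    have h1 := supp_le hK hne hy (y - v)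
    rw [h] at h1
    have h2 : ⟪y, y - v⟫ - ⟪v, y - v⟫ = ‖y - v‖ ^ 2 := by
      rw [← inner_sub_left, real_inner_self_eq_norm_sq]
    nlinarith
  · intro hy
    by_contra hnot
    obtain ⟨f, u, h1, h2⟩ := geometric_hahn_banach_closed_point hc hK.isClosed hnot
    set w := (InnerProductSpace.toDual ℝ E).symm f with hw
    have hf : ∀ x, f x = ⟪x, w⟫ := by
      intro x
      rw [real_inner_comm, hw, InnerProductSpace.toDual_symm_apply]
    obtain ⟨⟨x, hx, e⟩, _⟩ := supp_great hK hne w
    simp only at e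
    have h3 := h1 x hx
    rw [hf, e, h] at h3
    rw [hf] at h2
    have h4 : ⟪y, w⟫ - ⟪v, w⟫ ≤ ‖y - v‖ * ‖w‖ := by
      rw [← inner_sub_left]
      exact real_inner_le_norm _ _
    have h5 : ‖y - v‖ * ‖w‖ ≤ r * ‖w‖ := by gcongr
    linarith

end support

theorem ball_rotor {V : Fin 3 → P} {s : ℝ} (h : Equilateral V s) (c : E) :
    IsRotor V (Metric.closedBall c (s / (2 * √3))) := by
  have hs := h.1
  have h3 : (0 : ℝ) < √3 := by positivity
  intro ρ hρ
  refine ⟨lf (cen V) - ρ c, ?_, ?_⟩
  · rintro _ ⟨x, hx, rfl⟩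
    show proj (ρ x + (lf (cen V) - ρ c)) ∈ convexHull ℝ (range V)
    apply mem_hull h
    have e : proj (ρ x + (lf (cen V) - ρ c)) - cen V = pr (ρ (x - c)) := by
      rw [map_sub]
      have e1 : proj (ρ x + (lf (cen V) - ρ c)) = pr (lf (cen V) + (ρ x - ρ c)) := by
        show pr _ = pr _
        congr 1
        abel
      rw [e1, pr_add, pr_lf]
      abel
    rw [e]
    apply (pr_norm _).trans
    rw [LinearIsometryEquiv.norm_map]
    exact mem_closedBall_iff_norm.1 hx
  · intro i j hij
    obtain ⟨k, hk⟩ : ∃ k, V k - cen V = -((V i - cen V) + (V j - cen V)) := by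
      have hsum := (frame h).sum
      fin_cases i <;> fin_cases j
      · exact absurd rfl hij
      · refine ⟨2, ?_⟩
        show V 2 - cen V = -((V 0 - cen V) + (V 1 - cen V))
        rw [eq_neg_iff_add_eq_zero, ← hsum]; abel
      · refine ⟨1, ?_⟩
        show V 1 - cen V = -((V 0 - cen V) + (V 2 - cen V))
        rw [eq_neg_iff_add_eq_zero, ← hsum]; abel
      · refine ⟨2, ?_⟩
        show V 2 - cen V = -((V 1 - cen V) + (V 0 - cen V))
        rw [eq_neg_iff_add_eq_zero, ← hsum]; abel
      · exact absurd rfl hij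
      · refine ⟨0, ?_⟩
        show V 0 - cen V = -((V 1 - cen V) + (V 2 - cen V))
        rw [eq_neg_iff_add_eq_zero, ← hsum]; abel
      · refine ⟨1, ?_⟩
        show V 1 - cen V = -((V 2 - cen V) + (V 0 - cen V))
        rw [eq_neg_iff_add_eq_zero, ← hsum]; abel
      · refine ⟨0, ?_⟩
        show V 0 - cen V = -((V 2 - cen V) + (V 1 - cen V))
        rw [eq_neg_iff_add_eq_zero, ← hsum]; abel
      · exact absurd rfl hij
    have hu : ‖lf (nor V s k)‖ = 1 := by
      have := (trip h).one k
      rw [real_inner_self_eq_norm_sq] at this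
      have h0 := norm_nonneg (lf (nor V s k))
      nlinarith
    refine ⟨lf (cen V) + (s / (2 * √3)) • lf (nor V s k), ⟨c + ρ.symm ((s / (2 * √3)) • lf (nor V s k)), ?_, ?_⟩, ?_⟩
    · rw [mem_closedBall_iff_norm, add_sub_cancel_left, LinearIsometryEquiv.norm_map, norm_smul, hu,
        mul_one, Real.norm_eq_abs, abs_of_pos (by positivity)]
    · simp only [map_add, LinearIsometryEquiv.apply_symm_apply]
      abel
    · show pr (lf (cen V) + (s / (2 * √3)) • lf (nor V s k)) ∈ segment ℝ (V i) (V j)
      rw [pr_add, pr_smul, pr_lf, pr_lf]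
      refine ⟨1 / 2, 1 / 2, by norm_num, by norm_num, by norm_num, ?_⟩
      unfold nor
      rw [hk, smul_smul]
      have e : s / (2 * √3) * -(√3 / s) = -(1 / 2) := by field_simp
      rw [e]
      module

/-- **Goldberg's question on rotors in the regular triangular prism.** Let `V 0`, `V 1`, `V 2` be the vertices of an
equilateral triangle of side `s` in the plane. A compact convex set `K` is a rotor in the infinite prism over
the triangle if and only if it is a ball of radius `s / (2 √3)`. In particular every rotor is a ball. -/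
theorem result (V : Fin 3 → EuclideanSpace ℝ (Fin 2)) (s : ℝ) (hV : Equilateral V s)
    (K : Set (EuclideanSpace ℝ (Fin 3))) (hc : Convex ℝ K) (hK : IsCompact K) :
    IsRotor V K ↔ ∃ c, K = Metric.closedBall c (s / (2 * √3)) := by
  constructor
  · intro hrot
    have hs := hV.1
    have h3 : (0 : ℝ) < √3 := by positivity
    have hne : K.Nonempty := by
      obtain ⟨t, _, h2⟩ := hrot (LinearIsometryEquiv.refl ℝ _) IsRot.refl
      obtain ⟨_, ⟨x, hx, _⟩, _⟩ := h2 0 1 (by decide)
      exact ⟨x, hx⟩
    have hfn : Fn (fun i => lf (nor V s i)) (fun x => supp K x - s / (2 * √3) * ‖x‖) := by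
      refine ⟨?_, ?_, ?_⟩
      · exact (supp_cont hK).sub (continuous_const.mul continuous_norm)
      · intro a x ha
        rw [supp_hom hK hne a x ha, norm_smul, Real.norm_eq_abs, abs_of_nonneg ha]
        ring
      · intro ρ hρ
        obtain ⟨t, h1, h2⟩ := hrot ρ.symm (IsRot.symm hρ)
        have key : ∀ i j k : Fin 3, i ≠ j → i ≠ k → j ≠ k → supp K (ρ (lf (nor V s i))) =
            s / (2 * √3) + ⟪cen V, nor V s i⟫ - ⟪t, lf (nor V s i)⟫ := by
          intro i j k hij hik hjk
          have e : ∀ x : E, ⟪x, ρ (lf (nor V s i))⟫ =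
              ⟪pr (ρ.symm x + t) - cen V, nor V s i⟫ + ⟪cen V, nor V s i⟫ - ⟪t, lf (nor V s i)⟫ := by
            intro x
            rw [inner_sub_left, ← inner_lf, inner_add_left]
            have e2 : ⟪ρ.symm x, lf (nor V s i)⟫ = ⟪x, ρ (lf (nor V s i))⟫ := by
              rw [← LinearIsometryEquiv.inner_map_map ρ, LinearIsometryEquiv.apply_symm_apply]
            rw [e2]
            ring
          apply supp_eq
          · intro x hx
            rw [e]
            have := hull_le hV i (p := pr (ρ.symm x + t)) (h1 ⟨x, hx, rfl⟩)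
            linarith
          · obtain ⟨_, ⟨x, hx, rfl⟩, hx2⟩ := h2 j k hjk
            refine ⟨x, hx, ?_⟩
            rw [e, side_eq hV hij hik (p := pr (ρ.symm x + t)) hx2]
        have n1 : ∀ i, ‖ρ (lf (nor V s i))‖ = 1 := by
          intro i
          rw [LinearIsometryEquiv.norm_map]
          have := (trip hV).one i
          rw [real_inner_self_eq_norm_sq] at this
          have h0 := norm_nonneg (lf (nor V s i))
          nlinarith
        have z1 : ⟪cen V, nor V s 0⟫ + ⟪cen V, nor V s 1⟫ + ⟪cen V, nor V s 2⟫ = 0 := by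
          rw [← inner_add_right, ← inner_add_right, nor_sum hV, inner_zero_right]
        have z2 : ⟪t, lf (nor V s 0)⟫ + ⟪t, lf (nor V s 1)⟫ + ⟪t, lf (nor V s 2)⟫ = 0 := by
          rw [← inner_add_right, ← inner_add_right, ← lf_add, ← lf_add, nor_sum hV, lf_zero,
            inner_zero_right]
        show supp K (ρ (lf (nor V s 0))) - s / (2 * √3) * ‖ρ (lf (nor V s 0))‖ +
          (supp K (ρ (lf (nor V s 1))) - s / (2 * √3) * ‖ρ (lf (nor V s 1))‖) +
          (supp K (ρ (lf (nor V s 2))) - s / (2 * √3) * ‖ρ (lf (nor V s 2))‖) = 0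
        rw [n1, n1, n1, key 0 1 2 (by decide) (by decide) (by decide),
          key 1 0 2 (by decide) (by decide) (by decide), key 2 0 1 (by decide) (by decide) (by decide)]
        linarith
    obtain ⟨v, hv⟩ := linear (trip hV) hfn
    refine ⟨v, eq_ball hc hK hne (by positivity) ?_⟩
    intro x
    have := hv x
    linarith
  · rintro ⟨c, rfl⟩
    exact ball_rotor hV c

end Pool.Agent.Results.MP_c2e62a_gt.OnlyBalls
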